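import Mathlib
import Pool.Agent.MP_ec11a7_an.H29.Density

/-!
The opening (gap) of two subspaces of a normed space: there is a constant larger than `1/2`
below which the opening forces equality of dimensions.
-/

namespace Pool.Agent.Results.MP_ec11a7_an.OpeningDim

universe u v

/-- The opening (gap) of two subspaces: the larger of the suprema, over the unit vectors of one
subspace, of the distance to the other subspace. -/
noncomputable def opening {𝕜 : Type v} [RCLike 𝕜] {E : Type u} [NormedAddCommGroup E]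
    [NormedSpace 𝕜 E] (G₁ G₂ : Submodule 𝕜 E) : ℝ :=
  max (⨆ x : {x : E // x ∈ G₁ ∧ ‖x‖ = 1}, Metric.infDist (x : E) (G₂ : Set E))
    (⨆ y : {y : E // y ∈ G₂ ∧ ‖y‖ = 1}, Metric.infDist (y : E) (G₁ : Set E))

open Classical in
/-- The dimension of a subspace: the linear dimension if it is finite, and otherwise the density
character, the least cardinality of a dense subset. -/
noncomputable def dimension {𝕜 : Type v} [RCLike 𝕜] {E : Type u} [NormedAddCommGroup E]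
    [NormedSpace 𝕜 E] (G : Submodule 𝕜 E) : Cardinal.{u} :=
  if FiniteDimensional 𝕜 G then (Module.finrank 𝕜 G : Cardinal.{u})
  else sInf {c : Cardinal.{u} | ∃ s : Set G, Dense s ∧ Cardinal.mk s = c}

section Proof

set_option linter.style.haveILetI false

open Pool.Agent.MP_ec11a7_an.H29 Cardinal Set

variable {𝕜 : Type v} [RCLike 𝕜] {E : Type u} [NormedAddCommGroup E] [NormedSpace 𝕜 E]

lemma near_of_lt (G₁ G₂ : Submodule 𝕜 E) (c : ℝ)
    (h : (⨆ x : {x : E // x ∈ G₁ ∧ ‖x‖ = 1}, Metric.infDist (x : E) (G₂ : Set E)) < c) :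
    ∀ x ∈ G₁, ‖x‖ = 1 → ∃ y ∈ G₂, ‖y - x‖ < c := by
  intro x hx hx1
  have hb : BddAbove (range fun x : {x : E // x ∈ G₁ ∧ ‖x‖ = 1} =>
      Metric.infDist (x : E) (G₂ : Set E)) := by
    refine ⟨1, ?_⟩
    rintro _ ⟨z, rfl⟩
    have := Metric.infDist_le_dist_of_mem (x := (z : E)) (G₂.zero_mem : (0 : E) ∈ (G₂ : Set E))
    rw [dist_zero_right, z.2.2] at this
    exact this
  have h1 := (le_ciSup hb ⟨x, hx, hx1⟩).trans_lt h
  obtain ⟨y, hy, hlt⟩ := (Metric.infDist_lt_iff ⟨0, G₂.zero_mem⟩).1 h1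
  exact ⟨y, hy, by rwa [dist_comm, dist_eq_norm] at hlt⟩

lemma finite_case (G₁ G₂ : Submodule 𝕜 E) [FiniteDimensional 𝕜 G₁]
    (h₁ : ∀ x ∈ G₁, ‖x‖ = 1 → ∃ y ∈ G₂, ‖y - x‖ < 9 / 16)
    (h₂ : ∀ y ∈ G₂, ‖y‖ = 1 → ∃ x ∈ G₁, ‖x - y‖ < 9 / 16) :
    FiniteDimensional 𝕜 G₂ ∧ Module.finrank 𝕜 G₂ ≤ Module.finrank 𝕜 G₁ := by
  letI : NormedSpace ℝ E := NormedSpace.restrictScalars ℝ 𝕜 E
  haveI : IsScalarTower ℝ 𝕜 E := IsScalarTower.restrictScalars ℝ 𝕜 E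
  haveI : FiniteDimensional ℝ G₁ := Module.Finite.trans 𝕜 G₁
  haveI : FiniteDimensional ℝ (G₁.restrictScalars ℝ) := ‹FiniteDimensional ℝ G₁›
  obtain ⟨hf, hle⟩ := finiteDimensional_of_gap (G₁.restrictScalars ℝ) (G₂.restrictScalars ℝ)
    (fun x hx hx1 => by
      obtain ⟨y, hy, h⟩ := h₁ x hx hx1
      exact ⟨y, hy, by linarith⟩)
    (fun y hy hy1 => by
      obtain ⟨x, hx, h⟩ := h₂ y hy hy1
      exact ⟨x, hx, by linarith⟩)
  haveI : FiniteDimensional ℝ G₂ := hf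
  haveI : FiniteDimensional 𝕜 G₂ := Module.Finite.of_restrictScalars_finite ℝ 𝕜 G₂
  refine ⟨this, ?_⟩
  have hle' : Module.finrank ℝ G₂ ≤ Module.finrank ℝ G₁ := hle
  rw [← Module.finrank_mul_finrank ℝ 𝕜 G₂, ← Module.finrank_mul_finrank ℝ 𝕜 G₁] at hle'
  exact Nat.le_of_mul_le_mul_left hle' Module.finrank_pos

lemma density_case (G₁ G₂ : Submodule 𝕜 E) (hG₁ : G₁ ≠ ⊥)
    (h₁ : ∀ x ∈ G₁, ‖x‖ = 1 → ∃ y ∈ G₂, ‖y - x‖ < 9 / 16)
    (h₂ : ∀ y ∈ G₂, ‖y‖ = 1 → ∃ x ∈ G₁, ‖x - y‖ < 9 / 16) :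
    sInf {c : Cardinal.{u} | ∃ s : Set G₂, Dense s ∧ Cardinal.mk s = c} ≤
      sInf {c : Cardinal.{u} | ∃ s : Set G₁, Dense s ∧ Cardinal.mk s = c} := by
  letI : NormedSpace ℝ E := NormedSpace.restrictScalars ℝ 𝕜 E
  haveI : IsScalarTower ℝ 𝕜 E := IsScalarTower.restrictScalars ℝ 𝕜 E
  obtain ⟨s, hs, hsc⟩ := csInf_mem (s := {c : Cardinal.{u} | ∃ s : Set G₁, Dense s ∧ #s = c})
    ⟨_, Set.univ, dense_univ, rfl⟩
  rw [← hsc]
  have hinf : ℵ₀ ≤ #s := by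
    rw [Cardinal.aleph0_le_mk_iff, Set.infinite_coe_iff]
    intro hfin
    haveI : Nontrivial G₁ := Submodule.nontrivial_iff_ne_bot.2 hG₁
    haveI : Infinite G₁ := Module.Free.infinite 𝕜 G₁
    have : s = Set.univ := by rw [← hfin.isClosed.closure_eq, hs.closure_eq]
    rw [this] at hfin
    exact Set.infinite_univ hfin
  have hD : ((G₁.restrictScalars ℝ : Submodule ℝ E) : Set E) ⊆ closure (Subtype.val '' s) := by
    intro x hx
    exact closure_subtype.1 (hs ⟨x, hx⟩)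
  obtain ⟨T, hT1, hT2, hT3⟩ := exists_dense_of_gap (G₁.restrictScalars ℝ) (G₂.restrictScalars ℝ)
    (exists_near_of_unit _ _ _ fun x hx hx1 => by
      obtain ⟨y, hy, h⟩ := h₁ x hx hx1
      exact ⟨y, hy, h.le⟩)
    (exists_near_of_unit _ _ _ fun y hy hy1 => by
      obtain ⟨x, hx, h⟩ := h₂ y hy hy1
      exact ⟨x, hx, h.le⟩)
    (Subtype.val '' s) hD (#s) hinf Cardinal.mk_image_le
  have hdense : Dense ((Subtype.val : G₂ → E) ⁻¹' T) := by
    intro y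
    have himg : (Subtype.val : G₂ → E) '' ((Subtype.val : G₂ → E) ⁻¹' T) = T := by
      apply Set.image_preimage_eq_of_subset
      intro z hz
      exact ⟨⟨z, hT1 hz⟩, rfl⟩
    rw [closure_subtype, himg]
    exact hT3 y.2
  have hmem : #((Subtype.val : G₂ → E) ⁻¹' T) ∈
      {c : Cardinal.{u} | ∃ s : Set G₂, Dense s ∧ #s = c} := ⟨_, hdense, rfl⟩
  refine (csInf_le' hmem).trans ?_
  exact (Cardinal.mk_preimage_of_injective _ _ Subtype.val_injective).trans hT2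

end Proof

theorem result : ∃ α : ℝ, 1 / 2 < α ∧ α = 9 / 16 ∧
    ∀ (𝕜 : Type v) [RCLike 𝕜] (E : Type u) [NormedAddCommGroup E] [NormedSpace 𝕜 E]
      (G₁ G₂ : Submodule 𝕜 E), G₁ ≠ ⊥ → G₂ ≠ ⊥ → opening G₁ G₂ < α →
      dimension G₁ = dimension G₂ := by
  refine ⟨9 / 16, by norm_num, rfl, fun 𝕜 _ E _ _ G₁ G₂ hG₁ hG₂ h => ?_⟩
  have h₁ := near_of_lt G₁ G₂ _ ((le_max_left _ _).trans_lt h)
  have h₂ := near_of_lt G₂ G₁ _ ((le_max_right _ _).trans_lt h)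
  unfold dimension
  by_cases f₁ : FiniteDimensional 𝕜 G₁
  · obtain ⟨f₂, hle⟩ := finite_case G₁ G₂ h₁ h₂
    obtain ⟨-, hle'⟩ := finite_case G₂ G₁ h₂ h₁
    rw [if_pos f₁, if_pos f₂, le_antisymm hle hle']
  · have f₂ : ¬ FiniteDimensional 𝕜 G₂ := fun f₂ => f₁ (finite_case G₂ G₁ h₂ h₁).1
    rw [if_neg f₁, if_neg f₂]
    exact le_antisymm (density_case G₂ G₁ hG₂ h₂ h₁) (density_case G₁ G₂ hG₁ h₁ h₂)

end Pool.Agent.Results.MP_ec11a7_an.OpeningDim
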